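import Pool.Agent.V11321.HN.Norm

/-!
# Hyperinvariant subspaces for compact perturbations of operators with a part of the spectrum on a
rectifiable curve

Let `S` be a bounded operator on a complex Banach space such that, inside an open set `U`, its
resolvent exists off a rectifiable curve (the image of `[0, 1]` under a Lipschitz map) and grows at
most polynomially, or exponentially of finite order, at the curve.  Let `K` be a bounded operator
which is well approximated by operators of finite rank: its approximation numbers decay polynomially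
in the first case and like a stretched exponential in the second case (or the growth and the decay
match in a general sense).  If the spectrum of `S + K` has at least two points and meets `U`, then
`S + K` has a nontrivial closed hyperinvariant subspace.  On a Hilbert space: if `N` is normal, the
part of the spectrum of `N` in `U` lies on a rectifiable curve, the singular numbers of `K` decay
polynomially (for instance `K` in a Schatten class) and the spectrum of `N + K` meets `U`, then
`N + K` is a multiple of the identity or has a nontrivial closed hyperinvariant subspace.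

In all cases, if a point of `U` is an accumulation point of the spectrum of the perturbed operator,
then the perturbed operator has an infinite strictly monotone sequence of closed hyperinvariant
subspaces; and if `U` contains a half-plane `Re z > a` in which the spectrum of `S + K` lies on the
curve, then there is a nest of closed hyperinvariant subspaces of `S + K` which separates the real
parts `> a` of the points of the spectrum.

Proof of the first part: library project `Pool.Agent.W402.HI`. The chains and nests are new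
(`Pool.Agent.V11321.HN`).
-/

set_option autoImplicit false

open Metric

namespace Pool.Agent.Results.MP_f981b0_an.CurvePerturbations

section Defs

variable {X : Type} [NormedAddCommGroup X] [NormedSpace ℂ X]

/-- `V` is a closed subspace which is invariant under every bounded operator commuting with `T` (in
particular under `T`). -/
def Hyperinvariant (T : X →L[ℂ] X) (V : Submodule ℂ X) : Prop :=
  IsClosed (V : Set X) ∧ ∀ Q : X →L[ℂ] X, Q * T = T * Q → ∀ x ∈ V, Q x ∈ V

/-- `T` has a closed hyperinvariant subspace, neither `{0}` nor the whole space. -/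
def HasHyperinvariant (T : X →L[ℂ] X) : Prop :=
  ∃ V : Submodule ℂ X, Hyperinvariant T V ∧ V ≠ ⊥ ∧ V ≠ ⊤

/-- `T` has an infinite strictly increasing or strictly decreasing sequence of closed hyperinvariant
subspaces. -/
def InfiniteChain (T : X →L[ℂ] X) : Prop :=
  ∃ V : ℕ → Submodule ℂ X, (∀ n, Hyperinvariant T (V n)) ∧ (StrictMono V ∨ StrictAnti V)

/-- There is an increasing family `V c`, `c` real, of closed hyperinvariant subspaces of `T`, such
that, for `a < c < c'`: `V c ≠ V c'` if there is a point of the spectrum of `T` with real part between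
`c` and `c'`; `V c` is not `{0}` if there is a point of the spectrum with real part `< c`, and `V c` is
not the whole space if there is a point of the spectrum with real part `> c`. -/
def NestBeyond (T : X →L[ℂ] X) (a : ℝ) : Prop := ∃ V : ℝ → Submodule ℂ X,
  (∀ c : ℝ, Hyperinvariant T (V c)) ∧ (∀ c c' : ℝ, c ≤ c' → V c ≤ V c') ∧
  (∀ c c' : ℝ, a < c → (∃ μ ∈ spectrum ℂ T, c < μ.re ∧ μ.re < c') → V c ≠ V c') ∧
  (∀ c : ℝ, a < c → (∃ μ ∈ spectrum ℂ T, μ.re < c) → V c ≠ ⊥) ∧
  (∀ c : ℝ, a < c → (∃ μ ∈ spectrum ℂ T, c < μ.re) → V c ≠ ⊤)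

/-- `p` is an accumulation point of `E`. -/
def Accumulates (E : Set ℂ) (p : ℂ) : Prop :=
  ∀ r : ℝ, 0 < r → ∃ z ∈ E, z ≠ p ∧ ‖z - p‖ < r

/-- `T` is a multiple of the identity. -/
def IsScalar (T : X →L[ℂ] X) : Prop := ∃ c : ℂ, T = c • (1 : X →L[ℂ] X)

/-- Polynomial decay of the approximation numbers: for some `C` and `ε > 0` and every `m ≥ 1` there is
an operator `G` of rank at most `m` with `‖K - G‖ ≤ C / m ^ ε`. -/
def PolynomialDecay (K : X →L[ℂ] X) : Prop :=
  ∃ C ε : ℝ, 0 < ε ∧ ∀ m : ℕ, 1 ≤ m → ∃ G : X →L[ℂ] X,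
    FiniteDimensional ℂ (LinearMap.range (G : X →ₗ[ℂ] X)) ∧
    Module.finrank ℂ (LinearMap.range (G : X →ₗ[ℂ] X)) ≤ m ∧ ‖K - G‖ ≤ C / (m : ℝ) ^ ε

/-- Stretched exponential decay of the approximation numbers: for some `C` and `ε > 0` and every
`m ≥ 1` there is an operator `G` of rank at most `m` with `‖K - G‖ ≤ C exp (-m ^ ε)`. -/
def StretchedDecay (K : X →L[ℂ] X) : Prop :=
  ∃ C ε : ℝ, 0 < ε ∧ ∀ m : ℕ, 1 ≤ m → ∃ G : X →L[ℂ] X,
    FiniteDimensional ℂ (LinearMap.range (G : X →ₗ[ℂ] X)) ∧
    Module.finrank ℂ (LinearMap.range (G : X →ₗ[ℂ] X)) ≤ m ∧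
    ‖K - G‖ ≤ C * Real.exp (-(m : ℝ) ^ ε)

/-- Every `z` in `U` off `E` is in the resolvent set of `S`, and `‖(S - z)⁻¹‖ ≤ C / dist (z, E) ^ k`
there, for some `C` and `k`. -/
def PolynomialGrowth (S : X →L[ℂ] X) (E U : Set ℂ) : Prop :=
  ∃ (C : ℝ) (k : ℕ), ∀ z ∈ U, z ∉ E → z ∈ resolventSet ℂ S ∧ ‖resolvent S z‖ ≤ C / infDist z E ^ k

/-- Every `z` in `U` off `E` is in the resolvent set of `S`, and
`‖(S - z)⁻¹‖ ≤ exp (C / dist (z, E) ^ k)` there, for some `C` and `k`. -/
def ExponentialGrowth (S : X →L[ℂ] X) (E U : Set ℂ) : Prop :=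
  ∃ (C : ℝ) (k : ℕ), ∀ z ∈ U, z ∉ E → z ∈ resolventSet ℂ S ∧
    ‖resolvent S z‖ ≤ Real.exp (C / infDist z E ^ k)

/-- The growth of the resolvent of `S` at `E` inside `U` matches the approximability of `K`: for some
`C`, `k` and every `0 < δ ≤ 1` there are an operator `G` of rank at most `C / δ ^ k` and a number
`1 ≤ R ≤ exp (C / δ ^ k)` such that `‖K - G‖ R ≤ 1 / 2` and `‖(S - z)⁻¹‖ ≤ R` for all `z` in `U` with
distance at least `δ` from `E`. -/
def Matched (S K : X →L[ℂ] X) (E U : Set ℂ) : Prop :=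
  ∃ (C : ℝ) (k : ℕ), ∀ δ : ℝ, 0 < δ → δ ≤ 1 → ∃ (G : X →L[ℂ] X) (R : ℝ),
    FiniteDimensional ℂ (LinearMap.range (G : X →ₗ[ℂ] X)) ∧
    (Module.finrank ℂ (LinearMap.range (G : X →ₗ[ℂ] X)) : ℝ) ≤ C / δ ^ k ∧
    1 ≤ R ∧ R ≤ Real.exp (C / δ ^ k) ∧ ‖K - G‖ * R ≤ 1 / 2 ∧
    ∀ z ∈ U, δ ≤ infDist z E → z ∈ resolventSet ℂ S ∧ ‖resolvent S z‖ ≤ R

/-- One of the three conditions on the pair `S`, `K`. -/
def Admissible (S K : X →L[ℂ] X) (E U : Set ℂ) : Prop :=
  (PolynomialDecay K ∧ PolynomialGrowth S E U) ∨ (StretchedDecay K ∧ ExponentialGrowth S E U) ∨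
    Matched S K E U

end Defs

theorem freq {E : Set ℂ} {p : ℂ} (h : Accumulates E p) : ∃ᶠ z in nhdsWithin p {p}ᶜ, z ∈ E := by
  rw [Metric.nhdsWithin_basis_ball.frequently_iff]
  intro r hr
  obtain ⟨z, hz, hzp, hzr⟩ := h r hr
  exact ⟨z, ⟨by rw [Metric.mem_ball, dist_eq_norm]; exact hzr, hzp⟩, hz⟩

/-- Let `γ : ℝ → ℂ` be a Lipschitz map, `Γ = γ [0, 1]` and `U` an open set.

(1) Let `S`, `K` be bounded operators on a complex Banach space, such that one of the following
conditions holds: (a) the approximation numbers of `K` decay polynomially and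
`‖(S - z)⁻¹‖ ≤ C / dist (z, Γ) ^ k` for `z` in `U` off `Γ`, or
(b) the approximation numbers of `K` decay like a stretched exponential and
`‖(S - z)⁻¹‖ ≤ exp (C / dist (z, Γ) ^ k)` for `z` in `U` off `Γ`, or
(c) the growth of the resolvent of `S` at `Γ` inside `U` matches the approximability of `K`.
If the spectrum of `S + K` has at least two points and meets `U`, then `S + K` has a nontrivial closed
hyperinvariant subspace. If a point of `U` is an accumulation point of the spectrum of `S + K`, then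
`S + K` has an infinite strictly monotone sequence of closed hyperinvariant subspaces. If `U` contains
the half-plane `Re z > a` and the part of the spectrum of `S + K` in this half-plane lies on `Γ`, then
there is an increasing family of closed hyperinvariant subspaces of `S + K` which separates the real
parts `> a` of the points of the spectrum.

(2) Let `N`, `K` be bounded operators on a complex Hilbert space, `N` normal, the part of the spectrum
of `N` in `U` contained in `Γ`, with polynomially decaying approximation numbers of `K`. If the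
spectrum of `N + K` meets `U`, then `N + K` is a multiple of the identity or has a nontrivial closed
hyperinvariant subspace. If a point of `U` is an accumulation point of the spectrum of `N + K`, then
`N + K` has an infinite strictly monotone sequence of closed hyperinvariant subspaces. -/
theorem result (γ : ℝ → ℂ) (L : NNReal) (hγ : LipschitzWith L γ) (U : Set ℂ) (hU : IsOpen U)
    (X : Type) [NormedAddCommGroup X] [NormedSpace ℂ X] [CompleteSpace X] (T S K : X →L[ℂ] X)
    (hT : T = S + K)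
    (H : Type) [NormedAddCommGroup H] [InnerProductSpace ℂ H] [CompleteSpace H]
    (M N K' : H →L[ℂ] H) (hM : M = N + K') :
    (Admissible S K (γ '' Set.Icc 0 1) U →
      ((spectrum ℂ T).Nontrivial → (spectrum ℂ T ∩ U).Nonempty → HasHyperinvariant T) ∧
      ((∃ p ∈ U, Accumulates (spectrum ℂ T) p) → InfiniteChain T) ∧
      (∀ a : ℝ, {z : ℂ | a < z.re} ⊆ U → spectrum ℂ T ∩ {z : ℂ | a < z.re} ⊆ γ '' Set.Icc 0 1 →
        NestBeyond T a)) ∧
    (IsStarNormal N → spectrum ℂ N ∩ U ⊆ γ '' Set.Icc 0 1 → PolynomialDecay K' →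
      ((spectrum ℂ M ∩ U).Nonempty → IsScalar M ∨ HasHyperinvariant M) ∧
      ((∃ p ∈ U, Accumulates (spectrum ℂ M) p) → InfiniteChain M)) := by
  subst hT
  subst hM
  refine ⟨fun h => ⟨fun hn hp => ?_, fun hp => ?_, fun a ha hs => ?_⟩,
    fun hN hE hK => ⟨fun hp => ?_, fun hp => ?_⟩⟩
  · obtain ⟨p, hp1, hp2⟩ := hp
    have hh : Pool.Agent.W402.HI.HasHyp (S + K) := by
      rcases h with ⟨hK, hS⟩ | ⟨hK, hS⟩ | ⟨C, k, hM⟩
      · exact Pool.Agent.W402.HI.Asm.perturb Pool.Agent.W402.HI.Final.hH2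
          Pool.Agent.W402.HI.Final.hE3 Pool.Agent.W324.HI.E4.main Pool.Agent.W991.HI.E5.main
          Pool.Agent.W991.HI.E5L.main X S K γ L hγ U hU hK hS ⟨p, hp1, hp2⟩ hn
      · exact Pool.Agent.W402.HI.Asm.perturbExp Pool.Agent.W402.HI.Final.hH2
          Pool.Agent.W402.HI.Final.hE3 Pool.Agent.W324.HI.E4.main Pool.Agent.W991.HI.E5.main
          X S K γ L hγ U hU hK hS ⟨p, hp1, hp2⟩ hn
      · exact Pool.Agent.W402.HI.Asm.perturbGen Pool.Agent.W402.HI.Final.hH2
          Pool.Agent.W402.HI.Final.hE3 Pool.Agent.W324.HI.E4.main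
          X S K γ L hγ U hU C k hM ⟨p, hp1, hp2⟩ hn
    obtain ⟨V, v1, v2, v3, v4⟩ := hh
    exact ⟨V, ⟨v1, v4⟩, v2, v3⟩
  · obtain ⟨p, hpU, hp⟩ := hp
    rcases h with ⟨hK, hS⟩ | ⟨hK, hS⟩ | ⟨C, k, hM⟩
    · exact Pool.Agent.V11321.HN.chain_poly S K γ L hγ U hU hK hS p hpU (freq hp)
    · exact Pool.Agent.V11321.HN.chain_exp S K γ L hγ U hU hK hS p hpU (freq hp)
    · exact Pool.Agent.V11321.HN.chain_gen S K γ L hγ U hU C k hM p hpU (freq hp)
  · obtain ⟨hc, hne⟩ := Pool.Agent.W402.HI.Asm.curve_compact γ L hγ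
    have hn : Pool.Agent.V11321.HN.Nest (S + K) a := by
      refine Pool.Agent.V11321.HN.nest_pert S K γ L hγ a (fun z hz hza => hs ⟨hz, hza⟩) ?_
      rcases h with ⟨hK, ⟨C, k, hS⟩⟩ | ⟨hK, ⟨C, k, hS⟩⟩ | ⟨C, k, hM⟩
      · exact Pool.Agent.W991.HI.E5L.main X S K _ {z : ℂ | a < z.re} hc hne hK
          ⟨C, k, fun z hz hzE => hS z (ha hz) hzE⟩
      · exact Pool.Agent.W402.HI.Asm.pertL_of_exp hc hne hK (S := S) (U := {z : ℂ | a < z.re})
          ⟨C, k, fun z hz hzE => hS z (ha hz) hzE⟩
      · refine ⟨_, k, Pool.Agent.W402.HI.Asm.pertL_of_matched (C := C) (k := k) ?_⟩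
        intro δ h1 h2
        obtain ⟨G, R, g1, g2, g3, g4, g5, g6⟩ := hM δ h1 h2
        exact ⟨G, R, g1, g2, g3, g4, g5, fun z hz hd => g6 z (ha hz) hd⟩
    obtain ⟨V, v1, v2, v3, v4, v5⟩ := hn
    exact ⟨V, v1, v2, fun c c' hc ⟨μ, m1, m2, m3⟩ => v3 c c' hc.le μ m1 m2 m3,
      fun c hc ⟨μ, m1, m2⟩ => v4 c hc μ m1 m2, fun c hc ⟨μ, m1, m2⟩ => v5 c hc.le μ m1 m2⟩
  · by_cases hs : IsScalar (N + K')
    · exact Or.inl hs
    · obtain ⟨p, hp1, hp2⟩ := hp
      obtain ⟨V, v1, v2, v3, v4⟩ := Pool.Agent.W402.HI.Asm.normal Pool.Agent.W402.HI.Final.hH2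
        Pool.Agent.W402.HI.Final.hE3 Pool.Agent.W324.HI.E4.main Pool.Agent.W991.HI.E5.main
        Pool.Agent.W991.HI.E5L.main Pool.Agent.W577.HI.G1.main Pool.Agent.W806.HI.main
        Pool.Agent.W32.HI.G3.main H N K' hN γ L hγ U hU (fun z hz hzU => hE ⟨hz, hzU⟩) hK
        ⟨p, hp1, hp2⟩ hs
      exact Or.inr ⟨V, ⟨v1, v4⟩, v2, v3⟩
  · obtain ⟨p, hpU, hp⟩ := hp
    exact Pool.Agent.V11321.HN.chain_normal H N K' hN γ L hγ U hU
      (fun z hz hzU => hE ⟨hz, hzU⟩) hK p hpU (freq hp)

end Pool.Agent.Results.MP_f981b0_an.CurvePerturbations
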