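import Pool.Agent.H1.ISPMain

set_option autoImplicit false

open scoped InnerProductSpace

namespace Pool.Agent.Results.MP_f981b0_an.FiniteFactorOperator

section

variable {H : Type} [NormedAddCommGroup H] [InnerProductSpace ℂ H] [CompleteSpace H]

/-- `ξ` is a unit trace vector of `M`, cyclic and separating for `M`. -/
def TraceVector (M : VonNeumannAlgebra H) (ξ : H) : Prop :=
  ‖ξ‖ = 1 ∧ (∀ x ∈ M, ∀ y ∈ M, ⟪ξ, x (y ξ)⟫_ℂ = ⟪ξ, y (x ξ)⟫_ℂ) ∧
    (∀ x ∈ M, x ξ = 0 → x = 0) ∧ Dense {v : H | ∃ x ∈ M, v = x ξ}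

/-- The centre of `M` consists of scalars. -/
def IsFactor (M : VonNeumannAlgebra H) : Prop :=
  ∀ z ∈ M, (∀ x ∈ M, z * x = x * z) → ∃ c : ℂ, z = c • (1 : H →L[ℂ] H)

/-- No closed subspace other than `0` and `H` is invariant under `A` and under the commutant
of `M`. -/
def NoRelativeInvariantSubspace (M : VonNeumannAlgebra H) (A : H →L[ℂ] H) : Prop :=
  ∀ V : Submodule ℂ H, IsClosed (V : Set H) → (∀ v ∈ V, A v ∈ V) →
    (∀ S ∈ M.commutant, ∀ v ∈ V, S v ∈ V) → V = ⊥ ∨ V = ⊤

end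

/-- There are a separable infinite-dimensional complex Hilbert space `H`, a II₁ factor `M` on `H`
with a cyclic and separating unit trace vector `ξ`, and a non-scalar operator `A ∈ M` such that no
nontrivial closed subspace is invariant under `A` and under the commutant of `M`. -/
theorem result :
    ∃ (H : Type) (_ : NormedAddCommGroup H) (_ : InnerProductSpace ℂ H) (_ : CompleteSpace H)
      (_ : TopologicalSpace.SeparableSpace H) (M : VonNeumannAlgebra H) (ξ : H)
      (A : H →L[ℂ] H),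
      ¬ FiniteDimensional ℂ H ∧ IsFactor M ∧ TraceVector M ξ ∧
      A ∈ M ∧ (∀ c : ℂ, A ≠ c • (1 : H →L[ℂ] H)) ∧ NoRelativeInvariantSubspace M A := by
  obtain ⟨A, hA, hinv⟩ := Pool.Agent.H1.ISPMain.core Pool.Agent.H941R2.CM.tower
    Pool.Agent.H941R2.CM.tower_gapc
  refine ⟨Pool.Agent.H941R2.CM.Hs, inferInstance, inferInstance, inferInstance,
    Pool.Agent.H1.ISPMain.sep, Pool.Agent.H941R2.CM.M, Pool.Agent.H941R2.CM.xi, A,
    Pool.Agent.H1.ISPMain.infDim, fun z hz hc => Pool.Agent.H1.ISPMain.center hz hc,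
    ⟨Pool.Agent.H941R2.CM.norm_xi, ?_, ?_, Pool.Agent.H1.ISPMain.cyclic⟩, hA, ?_,
    fun V hV hAV hSV => Pool.Agent.H1.ISPMain.subspaces hinv V hV hAV hSV⟩
  · intro x hx y hy
    exact Pool.Agent.H941R2.CM.tau_comm hx hy
  · intro x hx h
    exact Pool.Agent.H941R2.CM.ext_M hx (zero_mem _) (by rw [h]; rfl)
  · intro c hc
    have T := Pool.Agent.H941R2.CM.tower
    have ht : Pool.Agent.H941R2.CM.tau (T.f 0 0 0) = 1 / 64 := by
      have h1 := T.f_indep 0 1 (one_mem _) 0 (by norm_num)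
      rwa [one_mul, T.tr.one] at h1
    have hidem : IsIdempotentElem (T.f 0 0 0) := by
      have := (T.fMU 0).mul 0 (by norm_num) 0 (by norm_num) 0 (by norm_num) 0 (by norm_num)
      rw [if_pos rfl] at this
      exact this
    have hsa : IsSelfAdjoint (T.f 0 0 0) := (T.fMU 0).star 0 (by norm_num) 0 (by norm_num)
    have hcomm : A * T.f 0 0 0 = T.f 0 0 0 * A * T.f 0 0 0 := by
      rw [hc, smul_mul_assoc, one_mul, mul_smul_comm, mul_one, smul_mul_assoc, hidem.eq]
    rcases hinv (T.f 0 0 0) (T.B_sub 1 _ (T.f_mem 0 0 (by norm_num) 0 (by norm_num)))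
      hidem hsa hcomm with h | h
    · rw [h, map_zero] at ht
      norm_num at ht
    · rw [h, T.tr.one] at ht
      norm_num at ht

end Pool.Agent.Results.MP_f981b0_an.FiniteFactorOperator
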