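import Pool.Agent.V11321.HL.Nest

/-!
# Nests of hyperinvariant subspaces for operators with a log-integrable resolvent

Let `T` be a bounded operator on a complex Banach space and let `U` be an open set in which the
spectrum of `T` is a null set and `log⁺ ‖(z - T)⁻¹‖` is integrable with respect to the area. For every
disc `|z - c| < ρ` contained in `U` there is an increasing family `V t`, `t` real, of closed
hyperinvariant subspaces which separates the distances from `c` of the points of the spectrum in the
disc. If the spectrum accumulates at a point of `U`, then `T` has an infinite strictly monotone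
sequence of closed hyperinvariant subspaces.

There is no geometric condition on the spectrum (it need not lie on a curve, and it may be totally
disconnected or connected), and no condition on the space.

Proof. Almost every circle `|z - c| = r` meets the spectrum in a null set and `log⁺ ‖(z - T)⁻¹‖` is
integrable on it. Outer functions `h` inside and `g` outside of the circle, with
`|h|, |g| ≤ min (1, ‖(z - T)⁻¹‖⁻¹)` on it, give operators `h(T)` and `g(T)` in the bicommutant of `T`
which behave like functions supported inside, respectively outside, of the circle: `g(T) h(T) = 0` if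
the circle of `g` is larger, and `h(T) = κ - (μ - T) Y` with `κ ≠ 0` and `Y` commuting with `T` for all
`μ` inside (`g(T)` for all `μ` outside); products of such operators are of the same form and do not
vanish if `μ` is in the spectrum. `V t` is the common kernel of the `g(T)` for all circles of radius
`> t`.

The outer functions are from the library `Pool.Agent.W610.HY` (used by the starting hand-in
`TwoCircles` of MP_5ac32f_an, which gives one hyperinvariant subspace); the operators outside of a
circle, the nests and the chains are new (`Pool.Agent.V11321.HL`).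
-/

set_option autoImplicit false

open MeasureTheory Metric

namespace Pool.Agent.Results.MP_f981b0_an.LogIntegrableNests

section Defs

variable {X : Type} [NormedAddCommGroup X] [NormedSpace ℂ X]

/-- `V` is a closed subspace which is invariant under every bounded operator commuting with `T` (in
particular under `T`). -/
def Hyperinvariant (T : X →L[ℂ] X) (V : Submodule ℂ X) : Prop :=
  IsClosed (V : Set X) ∧ ∀ Q : X →L[ℂ] X, Q * T = T * Q → ∀ x ∈ V, Q x ∈ V

/-- `T` has an infinite strictly increasing or strictly decreasing sequence of closed hyperinvariant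
subspaces. -/
def InfiniteChain (T : X →L[ℂ] X) : Prop :=
  ∃ V : ℕ → Submodule ℂ X, (∀ n, Hyperinvariant T (V n)) ∧ (StrictMono V ∨ StrictAnti V)

/-- There is an increasing family `V t`, `t` real, of closed hyperinvariant subspaces of `T`, such
that: `V t ≠ V t'` if `t ≥ 0` and there is a point `μ` of the spectrum with `t < |μ - c| < t'` and
`|μ - c| < ρ`; `V t` is not `{0}` if there is a point `μ` of the spectrum with `|μ - c| < t` and
`|μ - c| < ρ`; `V t`, `0 ≤ t < ρ`, is not the whole space if there is a point `μ` of the spectrum with
`|μ - c| > t`. -/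
def NestAround (T : X →L[ℂ] X) (c : ℂ) (ρ : ℝ) : Prop := ∃ V : ℝ → Submodule ℂ X,
  (∀ t : ℝ, Hyperinvariant T (V t)) ∧ (∀ t t' : ℝ, t ≤ t' → V t ≤ V t') ∧
  (∀ t t' : ℝ, 0 ≤ t → (∃ μ ∈ spectrum ℂ T, t < ‖μ - c‖ ∧ ‖μ - c‖ < t' ∧ ‖μ - c‖ < ρ) →
    V t ≠ V t') ∧
  (∀ t : ℝ, (∃ μ ∈ spectrum ℂ T, ‖μ - c‖ < t ∧ ‖μ - c‖ < ρ) → V t ≠ ⊥) ∧
  (∀ t : ℝ, 0 ≤ t → t < ρ → (∃ μ ∈ spectrum ℂ T, t < ‖μ - c‖) → V t ≠ ⊤)

end Defs

/-- Let `T` be a bounded operator on a complex Banach space and `U` an open set such that the spectrum
of `T` is a null set in `U` and `log⁺ ‖(z - T)⁻¹‖` is integrable over `U`.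

(1) For every `c` and `ρ` such that the disc `|z - c| < ρ` is contained in `U` there is an increasing
family of closed hyperinvariant subspaces `V t` which separates the distances from `c` of the points
of the spectrum in the disc (`NestAround`).

(2) If some point of `U` is an accumulation point of the spectrum of `T`, then `T` has an infinite
strictly monotone sequence of closed hyperinvariant subspaces. -/
theorem result (X : Type) [NormedAddCommGroup X] [NormedSpace ℂ X] [CompleteSpace X]
    (T : X →L[ℂ] X) (U : Set ℂ) (hU : IsOpen U) (hσ : volume (spectrum ℂ T ∩ U) = 0)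
    (hI : IntegrableOn (fun z : ℂ => Real.posLog ‖resolvent T z‖) U) :
    (∀ (c : ℂ) (ρ : ℝ), ball c ρ ⊆ U → NestAround T c ρ) ∧
    ((∃ p ∈ U, ∀ r : ℝ, 0 < r → ∃ z ∈ spectrum ℂ T, z ≠ p ∧ ‖z - p‖ < r) → InfiniteChain T) := by
  refine ⟨fun c ρ hc => Pool.Agent.V11321.HL.nest_log T U hσ hI c ρ hc hU.measurableSet, ?_⟩
  rintro ⟨p, hpU, hp⟩
  obtain ⟨ρ, hρ, hb⟩ := Metric.isOpen_iff.1 hU p hpU
  refine Pool.Agent.V11321.HL.chain_of_nestR hρ
    (Pool.Agent.V11321.HL.nest_log T U hσ hI p ρ hb hU.measurableSet) ?_
  rw [Metric.nhdsWithin_basis_ball.frequently_iff]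
  intro r hr
  obtain ⟨z, hz, hzp, hzr⟩ := hp r hr
  exact ⟨z, ⟨by rw [Metric.mem_ball, dist_eq_norm]; exact hzr, hzp⟩, hz⟩

end Pool.Agent.Results.MP_f981b0_an.LogIntegrableNests
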