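import Pool.Agent.H952R2.TY.P.FIN2
import Pool.Agent.H952R2.TY.P.A1
import Pool.Agent.H952R2.TY.P.A2
import Pool.Agent.H952R2.TY.P.A3
import Pool.Agent.H952R2.TY.P.A4
import Pool.Agent.H952R2.TY.P.A5
import Pool.Agent.H952R2.TY.P.A6
import Pool.Agent.H952R2.TY.P.A7
import Pool.Agent.H952R2.TY.P.A8
import Pool.Agent.H952R2.TY.P.A9
import Pool.Agent.H952R2.TY.P.A10
import Pool.Agent.H952R2.TY.P.A11
import Pool.Agent.H952R2.TY.P.A12
import Pool.Agent.H952R2.TY.P.B0
import Pool.Agent.H952R2.TY.P.B1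
import Pool.Agent.H952R2.TY.P.B2
import Pool.Agent.H952R2.TY.P.B3
import Pool.Agent.H952R2.TY.P.B4
import Pool.Agent.H952R2.TY.P.B5
import Pool.Agent.H952R2.TY.P.B6
import Pool.Agent.H952R2.TY.P.B7
import Pool.Agent.H952R2.TY.P.C1
import Pool.Agent.H952R2.TY.P.C2
import Pool.Agent.H952R2.TY.P.C3
import Pool.Agent.H952R2.TY.P.C4
import Pool.Agent.H952R2.TY.P.C5
import Pool.Agent.H952R2.TY.P.C6
import Pool.Agent.H952R2.TY.P.D1
import Pool.Agent.H952R2.TY.P.D2
import Pool.Agent.H952R2.TY.P.D3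
import Pool.Agent.H952R2.TY.P.D4
import Pool.Agent.H952R2.TY.P.D5
import Pool.Agent.H952R2.TY.P.D6
import Pool.Agent.H952R2.TY.P.D7
import Pool.Agent.H952R2.TY.P.T1
import Pool.Agent.H952R2.TY.P.T2
import Pool.Agent.H952R2.TY.P.T3
import Pool.Agent.H952R2.TY.P.T4
import Pool.Agent.H952R2.TY.P.T5
import Pool.Agent.H952R2.TY.P.T6
import Pool.Agent.H952R2.TY.P.T7
import Pool.Agent.H952R2.TY.P.T8

/-!
# MP_f981b0_an: typical quasinilpotent operators of McDuff algebras have invariant subspaces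

Let `M` be a von Neumann algebra on a Hilbert space `H` with a faithful normal tracial state `τ`, such
that every operator of `M` almost commutes, in the 2-norm, with systems of `m × m` matrix units of `M`,
for every `m` (McDuff factors are examples).  Let `QC M τ` be the set of the contractions `T` of `M`
which are quasinilpotent in measure: for every `r > 0` some power satisfies `‖T ^ n q‖ ≤ r ^ n` for a
projection `q` of `M` of trace at least `1 - r`.

With the metric of the 2-norm `QC M τ` is a Baire space.  A typical `T` in `QC M τ` is injective, and it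
has a closed invariant subspace `V` whose orthogonal projection lies in `M` and has trace `1 / 2` (so `V`
is neither `{0}` nor `H`); and `V` is invariant under all operators of `M` which commute with `T`.

Paper proof, statements of the parts, and the assembly `FIN2`: helper952 (starting repository, never
handed in).  Formal proofs of the parts: helpers of the starting repository.
-/

set_option autoImplicit false
open Filter Topology
open scoped ComplexOrder InnerProductSpace

namespace Pool.Agent.Results.MP_f981b0_an.TypicalMcDuff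

open Pool.Agent.H952R2.TY

variable {H : Type} [NormedAddCommGroup H] [InnerProductSpace ℂ H] [CompleteSpace H]

/-- `τ` is a faithful normal tracial state on the von Neumann algebra `M` (the values of `τ` outside
of `M` do not matter). -/
structure TracialState (M : VonNeumannAlgebra H) (τ : (H →L[ℂ] H) →ₗ[ℂ] ℂ) : Prop where
  one : τ 1 = 1
  nonneg : ∀ x ∈ M, 0 ≤ τ (star x * x)
  faithful : ∀ x ∈ M, τ (star x * x) = 0 → x = 0
  trace : ∀ x ∈ M, ∀ y ∈ M, τ (x * y) = τ (y * x)
  normal : ∀ (x : ℕ → (H →L[ℂ] H)) (y : H →L[ℂ] H), (∀ n, x n ∈ M) → (∀ n, ‖x n‖ ≤ 1) → y ∈ M →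
    (∀ v, Tendsto (fun n => x n v) atTop (𝓝 (y v))) → Tendsto (fun n => τ (x n)) atTop (𝓝 (τ y))

/-- Every operator of `M` almost commutes, in the 2-norm `√τ(x* x)`, with the members of a system of
`m × m` matrix units of `M` with sum `1`, for every `m ≥ 1`. -/
def AlmostCommutingUnits (M : VonNeumannAlgebra H) (τ : (H →L[ℂ] H) →ₗ[ℂ] ℂ) : Prop :=
  ∀ m : ℕ, 1 ≤ m → ∀ T ∈ M, ∀ ε : ℝ, 0 < ε → ∃ e : Fin m → Fin m → (H →L[ℂ] H),
    (∀ i j, e i j ∈ M) ∧ (∀ i j k l, e i j * e k l = if j = k then e i l else 0) ∧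
    (∀ i j, star (e i j) = e j i) ∧ ∑ i, e i i = 1 ∧
    ∀ i j, (τ (star (e i j * T - T * e i j) * (e i j * T - T * e i j))).re ≤ ε

/-- `V` is a closed subspace whose orthogonal projection lies in `M` and has trace `1 / 2`, and `V` is
invariant under all operators of `M` which commute with `T` (among them `T`). -/
def HalfHyperinvariant (M : VonNeumannAlgebra H) (τ : (H →L[ℂ] H) →ₗ[ℂ] ℂ) (T : H →L[ℂ] H)
    (V : Submodule ℂ H) : Prop :=
  IsClosed (V : Set H) ∧ V ≠ ⊥ ∧ V ≠ ⊤ ∧
    (∃ E ∈ M, star E = E ∧ E * E = E ∧ τ E = 1 / 2 ∧ ∀ v, v ∈ V ↔ E v = v) ∧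
    ∀ S ∈ M, S * T = T * S → ∀ v ∈ V, S v ∈ V

lemma fin2 : P.S_FIN2 := by
  have c1 : S_C1 := P.C1 P.A1
  have c6 : S_C6 := P.C6 P.C2
  have a10 : S_A10 := P.A10 P.A1 P.A2 P.A3 (P.A4 P.A3) P.A5 P.A6 P.A7 P.A8 P.A9
  have b2 : S_B2 := P.B2 P.B0 P.B1
  have b7 : S_B7 := P.B7 P.B0 P.B1 b2 P.B3 P.B4 (P.B5 P.B3) P.B6
  have d1 : S_D1 := P.D1 c1 P.C2
  have st : P.S_STEP2 := P.STEP2 (P.A12 a10 P.A11) P.B0 b7 c1 (P.C4 c1 P.C2 (P.C3 P.C2)) c6 d1
    (P.D2 P.C2 d1) P.D3 P.D4 P.D5 P.D6 P.D7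
  exact P.FIN2 (P.T4 P.T1 (P.T3 P.T2)) P.T5 (P.T6 P.T1) (P.T7 P.T1 (P.T3 P.T2) P.D5)
    (P.T8 c1 c6) st (P.C5 P.C2)

/-- **Typical quasinilpotent contractions of McDuff algebras have hyperinvariant subspaces.** -/
theorem result (M : VonNeumannAlgebra H) (τ : (H →L[ℂ] H) →ₗ[ℂ] ℂ) (hτ : TracialState M τ)
    (hM : AlmostCommutingUnits M τ) :
    ∃ _ : MetricSpace (QC M τ),
      (∀ S T : QC M τ,
        dist S T = Real.sqrt (τ (star (S.op - T.op) * (S.op - T.op))).re) ∧
      BaireSpace (QC M τ) ∧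
      {T : QC M τ | (∀ v, T.op v = 0 → v = 0) ∧
        ∃ V : Submodule ℂ H, HalfHyperinvariant M τ T.op V} ∈ residual (QC M τ) := by
  obtain ⟨mm, hd, hB, hR⟩ := fin2 H M τ hτ.one hτ.nonneg hτ.faithful hτ.trace hτ.normal hM
  refine ⟨mm, hd, hB, ?_⟩
  refine Filter.mem_of_superset hR ?_
  rintro T ⟨h0, E, hE, hs, hi, ht, hS⟩
  refine ⟨h0, LinearMap.ker ((1 - E : H →L[ℂ] H) : H →ₗ[ℂ] H), ?_, ?_, ?_, ⟨E, hE, hs, hi, ht, ?_⟩, ?_⟩
  · exact ContinuousLinearMap.isClosed_ker (1 - E)
  · intro hb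
    have hz : E = 0 := by
      ext v
      have : E v ∈ LinearMap.ker ((1 - E : H →L[ℂ] H) : H →ₗ[ℂ] H) := by
        have h2 : E (E v) = E v := by
          rw [← ContinuousLinearMap.mul_apply, hi]
        simp [h2]
      rw [hb] at this
      simpa using this
    rw [hz] at ht
    simp at ht
  · intro hb
    have hz : E = 1 := by
      ext v
      have : v ∈ LinearMap.ker ((1 - E : H →L[ℂ] H) : H →ₗ[ℂ] H) := by rw [hb]; trivial
      have h3 : v - E v = 0 := by simpa using this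
      simpa using (sub_eq_zero.mp h3).symm
    rw [hz, hτ.one] at ht
    norm_num at ht
  · intro v
    simp only [LinearMap.mem_ker, ContinuousLinearMap.coe_coe, ContinuousLinearMap.sub_apply,
      ContinuousLinearMap.one_apply, sub_eq_zero]
    exact eq_comm
  · intro S hSM hST v hv
    have h1 : v = E v := by simpa [sub_eq_zero] using hv
    have h2 := congrArg (fun A : H →L[ℂ] H => A v) (hS S hSM hST)
    simp only [ContinuousLinearMap.mul_apply, ← h1] at h2
    simp only [LinearMap.mem_ker, ContinuousLinearMap.coe_coe, ContinuousLinearMap.sub_apply,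
      ContinuousLinearMap.one_apply, sub_eq_zero]
    exact h2

end Pool.Agent.Results.MP_f981b0_an.TypicalMcDuff
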